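import Mathlib
import Pool.Agent.Helper38.Dml.High

/-!
# Dynamical Mordell-Lang at a point for almost all endomorphisms in dimension four
-/

set_option autoImplicit false

namespace Pool.Agent.Results.MP_b15c9e_ag.PointDimFour

open MvPolynomial

/-- The quintuples of forms of degree `d` in five variables with integral coefficients of absolute
value at most `H`. -/
def Box (d H : ℕ) : Set (Fin 5 → MvPolynomial (Fin 5) ℤ) :=
  {F | ∀ i, (F i).IsHomogeneous d ∧ ∀ e, |(F i).coeff e| ≤ (H : ℤ)}

/-- Let `a` be a point of complex projective `4`-space. For every `ε > 0`, every `d ≥ D(a, ε)` and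
every `H ≥ H₀(a, ε, d)` all but a proportion `ε` of the finitely many quintuples `F` of forms of
degree `d` in five variables with integral coefficients of absolute value at most `H` have no
nontrivial common complex zero, so that they define an endomorphism of projective `4`-space, and
are such that the return set of every closed subvariety (over `ℂ`) along the orbit of `a` is a
finite union of arithmetic progressions. -/
theorem result (a : Fin 5 → ℂ) (ha : a ≠ 0) (ε : ℝ) (hε : 0 < ε) :
    ∃ D : ℕ, ∀ d : ℕ, D ≤ d → ∃ H₀ : ℕ, ∀ H : ℕ, H₀ ≤ H →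
      (Box d H).Finite ∧
      ({F ∈ Box d H |
        ¬ ((∀ x : Fin 5 → ℂ,
              (∀ i, eval x (MvPolynomial.map (Int.castRingHom ℂ) (F i)) = 0) → x = 0) ∧
            ∀ S : Set (MvPolynomial (Fin 5) ℂ), (∀ g ∈ S, ∃ e : ℕ, g.IsHomogeneous e) →
            ∃ T : Finset (ℕ × ℕ),
              {n : ℕ | ∀ g ∈ S, eval ((fun (x : Fin 5 → ℂ) (i : Fin 5) =>
                  eval x (MvPolynomial.map (Int.castRingHom ℂ) (F i)))^[n] a) g = 0}
                = {n : ℕ | ∃ q ∈ T, ∃ m : ℕ, n = q.1 * m + q.2})}.ncard : ℝ)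
        ≤ ε * ((Box d H).ncard : ℝ) := by
  obtain ⟨D, hD⟩ := Pool.Agent.Helper38.Dml.dim_four a ha ε hε
  refine ⟨D, fun d hd => ?_⟩
  obtain ⟨H₀, hH₀⟩ := hD d hd
  exact ⟨H₀, fun H hH => ⟨Pool.Agent.Helper38.Dml.BoxG_finite 5 d H, hH₀ H hH⟩⟩

end Pool.Agent.Results.MP_b15c9e_ag.PointDimFour
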