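import Mathlib
import Pool.Agent.Helper38.PC.Over
import Pool.Agent.Helper58.PC.Desc
import Pool.Agent.Helper30.RED.PNC
import Pool.Agent.Helper72.PN.DataN

/-!
# MP_b15c9e_ag: post-critically finite endomorphisms

Every post-critically finite endomorphism of `P²` over `ℂ` has the Dynamical Mordell-Lang
property, for every point and every closed set. For post-critically finite endomorphisms of `P^N`
the same is true for closed sets of dimension at most one and all points whose orbit is not
eventually contained in the post-critical hypersurface.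
-/

set_option autoImplicit false

namespace Pool.Agent.Results.MP_b15c9e_ag.PostCriticallyFinite

open MvPolynomial

variable {N : ℕ}

/-- The forms `f` of degree `d ≥ 2` have no common zero, so define an endomorphism of `P^N`. -/
def Endomorphism (d : ℕ) (f : Fin (N + 1) → MvPolynomial (Fin (N + 1)) ℂ) : Prop :=
  2 ≤ d ∧ (∀ i, (f i).IsHomogeneous d) ∧ ∀ x : Fin (N + 1) → ℂ, (∀ i, eval x (f i) = 0) → x = 0

/-- The `n`-th point of the orbit of `a`. -/
noncomputable def orbit (f : Fin (N + 1) → MvPolynomial (Fin (N + 1)) ℂ) (a : Fin (N + 1) → ℂ)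
    (n : ℕ) : Fin (N + 1) → ℂ :=
  (fun x : Fin (N + 1) → ℂ => fun i => eval x (f i))^[n] a

/-- The point `x` is critical: the Jacobian determinant of `f` vanishes. -/
def Critical (f : Fin (N + 1) → MvPolynomial (Fin (N + 1)) ℂ) (x : Fin (N + 1) → ℂ) : Prop :=
  (Matrix.of fun i j => eval x (pderiv j (f i))).det = 0

/-- The forward orbits of all critical points are contained in the hypersurface `G = 0` (so `f` is
post-critically finite). -/
def Postcritical (f : Fin (N + 1) → MvPolynomial (Fin (N + 1)) ℂ)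
    (G : MvPolynomial (Fin (N + 1)) ℂ) : Prop :=
  G ≠ 0 ∧ (∃ m : ℕ, G.IsHomogeneous m) ∧ ∀ x, Critical f x → ∀ n, eval (orbit f x n) G = 0

/-- Infinitely many points of the orbit of `a` are outside the hypersurface `G = 0`. -/
def Outside (f : Fin (N + 1) → MvPolynomial (Fin (N + 1)) ℂ) (a : Fin (N + 1) → ℂ)
    (G : MvPolynomial (Fin (N + 1)) ℂ) : Prop :=
  ∀ n : ℕ, ∃ m : ℕ, n ≤ m ∧ eval (orbit f a m) G ≠ 0

/-- The closed set defined by the forms in `S` has dimension at most one: the Krull dimension of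
its homogeneous coordinate ring is at most two. -/
def DimLeOne (S : Set (MvPolynomial (Fin (N + 1)) ℂ)) : Prop :=
  ringKrullDim (MvPolynomial (Fin (N + 1)) ℂ ⧸ Ideal.span S) ≤ 2

/-- **Theorem.** Let `f` be a post-critically finite endomorphism of `P^N` over `ℂ` of degree
`d ≥ 2`, with the forward orbits of all critical points in the hypersurface `G = 0`. Let `a` be
a point and `V` the closed set defined by the set `S` of forms. If `N = 2`, or if `V` has
dimension at most one and infinitely many points of the orbit of `a` are outside `G = 0`, then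
the set of all `n` with `f^n(a)` in `V` is a finite union of progressions. -/
theorem result (N d : ℕ) (f : Fin (N + 1) → MvPolynomial (Fin (N + 1)) ℂ)
    (hf : Endomorphism d f) (G : MvPolynomial (Fin (N + 1)) ℂ) (hG : Postcritical f G)
    (a : Fin (N + 1) → ℂ) (ha : a ≠ 0) (S : Set (MvPolynomial (Fin (N + 1)) ℂ))
    (hS : ∀ g ∈ S, ∃ e : ℕ, g.IsHomogeneous e) (h : N = 2 ∨ (DimLeOne S ∧ Outside f a G)) :
    ∃ T : Finset (ℕ × ℕ), {n : ℕ | ∀ g ∈ S, eval (orbit f a n) g = 0} =
      {n : ℕ | ∃ p ∈ T, ∃ m : ℕ, n = p.1 * m + p.2} := by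
  obtain ⟨hG0, ⟨m, hGm⟩, hcr⟩ := hG
  obtain ⟨h2, hh, hnz⟩ := hf
  rcases h with rfl | ⟨hdim, hout⟩
  · have hcr' : ∀ x : Fin 3 → ℂ, eval x (Pool.Agent.Helper30.TP.jf f) = 0 → Critical f x := by
      intro x hx
      rw [Pool.Agent.Helper30.TP.eval_jf] at hx
      exact hx
    obtain ⟨g, q, c, D, e, t, E, hdata⟩ := Pool.Agent.Helper58.PC.exists_pcfdata_self
      (F := f) ⟨h2, hh, hnz⟩ hGm hG0 (fun x hx n => hcr x (hcr' x hx) n)
    exact Pool.Agent.Helper38.PC.pcf_plane ⟨h2, hh, hnz⟩ hdata ha S hS
  · have hcr' : ∀ x : Fin (N + 1) → ℂ, eval x (Pool.Agent.Helper30.TKN.jf f) = 0 →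
        Critical f x := by
      intro x hx
      rw [Pool.Agent.Helper30.TKN.eval_jf] at hx
      exact hx
    obtain ⟨e, E, g, q, c, hdata, hgG⟩ := Pool.Agent.Helper72.PN.exists_data
      (F := f) ⟨h2, hh, hnz⟩ hGm hG0 (fun x hx n => hcr x (hcr' x hx) n)
    exact Pool.Agent.Helper30.RED.curve_dml ⟨h2, hh, hnz⟩ hdata ha
      (Pool.Agent.Helper72.PN.outside_of_frequently hdata hgG hout) hS hdim

end Pool.Agent.Results.MP_b15c9e_ag.PostCriticallyFinite
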