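import Mathlib
import Pool.Agent.Helper38.SP2.Main

/-!
# Dynamical Mordell-Lang in full for split polynomial maps and symmetric products
-/

set_option autoImplicit false

namespace Pool.Agent.Results.MP_b15c9e_ag.SplitPolynomials

/-- The forms `X_0^d` and `F_i = sum_j c_ij X_0^(d-j) X_i^j` (`i = 1, ..., N`): the split map
`(x_1, ..., x_N) ↦ (f_1(x_1), ..., f_N(x_N))` of affine space, `f_i = sum_j c_ij x^j`. -/
noncomputable def Split {N d : ℕ} (c : Fin N → Fin (d + 1) → ℂ) :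
    Fin (N + 1) → MvPolynomial (Fin (N + 1)) ℂ :=
  Fin.cons (MvPolynomial.X 0 ^ d) (fun i => ∑ j : Fin (d + 1),
    MvPolynomial.C (c i j) * MvPolynomial.X 0 ^ (d - (j : ℕ)) * MvPolynomial.X i.succ ^ (j : ℕ))

/-- The homogeneous form of the map `f = sum_j c_j x^j` of the projective line:
`(x, y) ↦ (sum_j c_j x^j y^(d-j), y^d)`. -/
noncomputable def line {d : ℕ} (c : Fin (d + 1) → ℂ) (v : Fin 2 → ℂ) : Fin 2 → ℂ :=
  ![∑ j : Fin (d + 1), c j * v 0 ^ (j : ℕ) * v 1 ^ (d - (j : ℕ)), v 1 ^ d]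

/-- The coefficients of the product of the linear forms `y_i T - x_i`, `(x_i, y_i) = v i`: the
quotient map from the `N`-th power of the projective line to its symmetric product `P^N`. -/
noncomputable def sym {N : ℕ} (v : Fin N → Fin 2 → ℂ) (l : Fin (N + 1)) : ℂ :=
  (∏ i, (Polynomial.C (v i 1) * Polynomial.X - Polynomial.C (v i 0)) : Polynomial ℂ).coeff l

/-- `F` has no nontrivial common zero (so the forms `F_i` of equal degree define an endomorphism of
projective space), and for every closed set `V` (common zeros of a set `S` of forms) and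
every point `a` the set of `n` with `F^n(a)` in `V` is a finite union of arithmetic progressions
`q.2 + q.1 m` (the difference `q.1` may be `0`). -/
def EndoDML {m : ℕ} (F : Fin m → MvPolynomial (Fin m) ℂ) : Prop :=
  (∀ x : Fin m → ℂ, (∀ i, MvPolynomial.eval x (F i) = 0) → x = 0) ∧
    ∀ a : Fin m → ℂ, a ≠ 0 → ∀ S : Set (MvPolynomial (Fin m) ℂ),
      (∀ g ∈ S, ∃ e : ℕ, g.IsHomogeneous e) →
        ∃ T : Finset (ℕ × ℕ),
          {n : ℕ | ∀ g ∈ S, MvPolynomial.eval
            ((fun (x : Fin m → ℂ) (i : Fin m) => MvPolynomial.eval x (F i))^[n] a) g = 0}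
            = {n : ℕ | ∃ q ∈ T, ∃ k : ℕ, n = q.1 * k + q.2}

/-- For `f_1, ..., f_k` (coefficients `c`): all split maps `(f_s(1), ..., f_s(N))` of `P^N` and all
symmetric products `Sym^N(f_i)` on `P^N`, for all `N`, are endomorphisms with the Dynamical
Mordell-Lang property. -/
def All {k d : ℕ} (c : Fin k → Fin (d + 1) → ℂ) : Prop :=
  (∀ (N : ℕ) (s : Fin N → Fin k), EndoDML (Split (fun i => c (s i)))) ∧
    ∀ (N : ℕ) (i : Fin k), ∃ F : Fin (N + 1) → MvPolynomial (Fin (N + 1)) ℂ,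
      (∀ l, (F l).IsHomogeneous d) ∧
      (∀ (v : Fin N → Fin 2 → ℂ) (l : Fin (N + 1)),
        MvPolynomial.eval (sym v) (F l) = sym (fun m => line (c i) (v m)) l) ∧ EndoDML F

/-- Let `d ≥ 2`. (A) If for some prime `p` not dividing `d` each `f_i` (degree at most `d`, integral
coefficients, `i = 1, ..., k`) has modulo `p` a nonzero coefficient of `x^d` and its derivative has
`d - 1` distinct zeros in `F_p` none of which is a value of `f_i` on `F_p`, then `All` holds.
(B) `All` holds for all but a proportion `ε` of the `k`-tuples of polynomials of degree at most `d`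
with integral coefficients in `[-H, H]`, if `H ≥ H₀(ε)`.
(C) `All` holds if the `k (d + 1)` coefficients are complex numbers algebraically independent over
the rationals. -/
theorem result (k d : ℕ) (hd : 2 ≤ d) :
    (∀ (c : Fin k → Fin (d + 1) → ℤ) (p : ℕ), p.Prime → ¬ p ∣ d →
      (∀ i, (c i (Fin.last d) : ZMod p) ≠ 0 ∧ ∃ Z : Finset (ZMod p), Z.card = d - 1 ∧
        (∀ z ∈ Z, ∑ j : Fin (d + 1), (j : ℕ) * (c i j : ZMod p) * z ^ ((j : ℕ) - 1) = 0) ∧
        ∀ x : ZMod p, ∑ j : Fin (d + 1), (c i j : ZMod p) * x ^ (j : ℕ) ∉ Z) →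
      All (fun i j => (c i j : ℂ))) ∧
    (∀ ε : ℝ, 0 < ε → ∃ H₀ : ℕ, ∀ H : ℕ, H₀ ≤ H →
      ({c : Fin k → Fin (d + 1) → ℤ | (∀ i j, |c i j| ≤ (H : ℤ)) ∧
          ¬ All (fun i j => (c i j : ℂ))}.ncard : ℝ)
        ≤ ε * ({c : Fin k → Fin (d + 1) → ℤ | ∀ i j, |c i j| ≤ (H : ℤ)}.ncard : ℝ)) ∧
    ∀ c : Fin k → Fin (d + 1) → ℂ,
      AlgebraicIndependent ℚ (fun q : Fin k × Fin (d + 1) => c q.1 q.2) → All c := by
  refine ⟨fun c p hp hpd h => ?_, Pool.Agent.Helper38.SP2.almost_all k d hd,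
    fun c hc => Pool.Agent.Helper38.SP2.all_of_independent hd c hc⟩
  have : Fact p.Prime := ⟨hp⟩
  refine Pool.Agent.Helper38.SP2.all_of_good hd c p hp fun i => ?_
  obtain ⟨hl, Z, hZ, hZ0, hZv⟩ := h i
  exact Pool.Agent.Helper38.SP.good_of_explicit hd (fun j => (c i j : ZMod p)) hpd hl Z
    hZ hZ0 hZv

end Pool.Agent.Results.MP_b15c9e_ag.SplitPolynomials
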