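import Mathlib
import Pool.Agent.Helper30.TP.Final

/-!
# MP_b15c9e_ag: all transcendental points of the plane

Let `k` be an algebraically closed subfield of `ℂ` and let `F` be an endomorphism of degree
`d ≥ 2` of the projective plane which is defined over `k`. Every point of `P²(ℂ)` outside `P²(k)`
has the Dynamical Mordell-Lang property: its return set to every closed set `V` over `ℂ` is a
finite union of arithmetic progressions. (The format is that of frozen statement `S00381`.)
Consequence: every endomorphism of `P²` over `ℂ` of degree `d ≥ 2` has the property at all but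
countably many points.
-/

set_option autoImplicit false

namespace Pool.Agent.Results.MP_b15c9e_ag.TranscendentalPoints

open MvPolynomial

/-- The Dynamical Mordell-Lang property of the point `a` of the projective plane over `ℂ`
for the map given by the forms `f`: for every set `S` of forms, the set of all `n` such that all
forms in `S` vanish at the `n`-th iterate of `a` is a finite union of progressions. -/
def DML (f : Fin 3 → MvPolynomial (Fin 3) ℂ) (a : Fin 3 → ℂ) : Prop :=
  ∀ S : Set (MvPolynomial (Fin 3) ℂ), (∀ g ∈ S, ∃ e : ℕ, g.IsHomogeneous e) →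
    ∃ T : Finset (ℕ × ℕ),
      {n : ℕ | ∀ g ∈ S, eval ((fun x : Fin 3 → ℂ => fun i => eval x (f i))^[n] a) g = 0}
        = {n : ℕ | ∃ p ∈ T, ∃ m : ℕ, n = p.1 * m + p.2}

/-- The forms `f` of degree `d ≥ 2` have no common zero, so define an endomorphism of the
projective plane. -/
def Endomorphism (d : ℕ) (f : Fin 3 → MvPolynomial (Fin 3) ℂ) : Prop :=
  2 ≤ d ∧ (∀ i, (f i).IsHomogeneous d) ∧ ∀ x : Fin 3 → ℂ, (∀ i, eval x (f i) = 0) → x = 0

/-- The point `a` of the projective plane has homogeneous coordinates in `k`. -/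
def DefinedOver (k : Subfield ℂ) (a : Fin 3 → ℂ) : Prop :=
  ∃ c : ℂ, c ≠ 0 ∧ ∀ i, c * a i ∈ k

theorem dml_outside (k : Subfield ℂ) [IsAlgClosed k] (d : ℕ) (f : Fin 3 → MvPolynomial (Fin 3) ℂ)
    (hf : Endomorphism d f) (hk : ∀ i m, (f i).coeff m ∈ k) (a : Fin 3 → ℂ) (ha0 : a ≠ 0)
    (ha : ¬ DefinedOver k a) : DML f a := by
  classical
  obtain ⟨hd, hh, hnz⟩ := hf
  have hlift : ∀ i, ∃ g : MvPolynomial (Fin 3) k, map (algebraMap k ℂ) g = f i := by
    intro i
    have h1 : f i ∈ Set.range (map (σ := Fin 3) (algebraMap k ℂ)) := by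
      rw [mem_range_map_iff_coeffs_subset]
      intro c hc
      obtain ⟨m, hm⟩ := mem_coeffs_iff.1 hc
      exact ⟨⟨c, by rw [hm.2]; exact hk i m⟩, rfl⟩
    exact h1
  choose g hg using hlift
  have hgh : ∀ i, (g i).IsHomogeneous d := by
    intro i
    have := hh i
    rw [← hg i] at this
    exact this.of_map (algebraMap k ℂ).injective
  have hend : Pool.Agent.Helper30.TP.IsEndo d g := by
    refine ⟨hd, hgh, fun x hx => ?_⟩
    have h1 : (fun i => algebraMap k ℂ (x i)) = 0 := by
      apply hnz
      intro i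
      rw [← hg i, ← Pool.Agent.Helper38.Sym.map_eval_gen, hx i, map_zero]
    funext i
    have h2 := congrFun h1 i
    simpa using h2
  have hac : ¬ Pool.Agent.Helper30.TP.IsConst k a := by
    rintro ⟨z, c, hc, h⟩
    apply ha
    refine ⟨c⁻¹, inv_ne_zero hc, fun i => ?_⟩
    rw [h, ← mul_assoc, inv_mul_cancel₀ hc, one_mul]
    exact (z i).2
  have h := Pool.Agent.Helper30.TP.final hend ha0 hac
  have h2 : (fun i => map (algebraMap k ℂ) (g i)) = f := funext hg
  rw [h2] at h
  exact h

theorem exists_countable_field (f : Fin 3 → MvPolynomial (Fin 3) ℂ) :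
    ∃ k : Subfield ℂ, IsAlgClosed k ∧ (k : Set ℂ).Countable ∧ ∀ i m, (f i).coeff m ∈ k := by
  classical
  set s : Set ℂ := ⋃ i, ((f i).coeffs : Set ℂ) with hs
  have hsc : s.Countable := Set.countable_iUnion fun i => (f i).coeffs.countable_toSet
  set K₀ : Subfield ℂ := Subfield.closure s with hK₀
  have hK₀c : Cardinal.mk K₀ ≤ Cardinal.aleph0 := by
    refine (Subfield.cardinalMk_closure_le_max s).trans ?_
    rw [max_le_iff]
    exact ⟨Cardinal.mk_le_aleph0_iff.2 hsc.to_subtype, le_rfl⟩
  set k' : IntermediateField K₀ ℂ := algebraicClosure K₀ ℂ with hk'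
  have hk'c : Cardinal.mk k' ≤ Cardinal.aleph0 := by
    refine (Algebra.IsAlgebraic.cardinalMk_le_max K₀ k').trans ?_
    rw [max_le_iff]
    exact ⟨hK₀c, le_rfl⟩
  haveI hac : IsAlgClosed k' := (algebraicClosure.isAlgClosure K₀ ℂ).isAlgClosed
  refine ⟨k'.toSubfield, hac, ?_, ?_⟩
  · exact Set.countable_coe_iff.1 (Cardinal.mk_le_aleph0_iff.1 hk'c)
  · intro i m
    by_cases h0 : (f i).coeff m = 0
    · rw [h0]
      exact k'.toSubfield.zero_mem
    · have h1 : (f i).coeff m ∈ K₀ := by
        apply Subfield.subset_closure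
        rw [hs, Set.mem_iUnion]
        exact ⟨i, coeff_mem_coeffs m h0⟩
      exact k'.algebraMap_mem ⟨_, h1⟩

/-- **Theorem.** (A) An endomorphism of degree `d ≥ 2` of the projective plane over `ℂ` with
coefficients in an algebraically closed subfield `k` of `ℂ` has the Dynamical Mordell-Lang
property at every point which is not defined over `k`.
(B) Every endomorphism of degree `d ≥ 2` of the projective plane over `ℂ` has the Dynamical
Mordell-Lang property at all but countably many points. -/
theorem result :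
    (∀ (k : Subfield ℂ) (d : ℕ) (f : Fin 3 → MvPolynomial (Fin 3) ℂ), IsAlgClosed k →
      Endomorphism d f → (∀ i m, (f i).coeff m ∈ k) →
        ∀ a : Fin 3 → ℂ, a ≠ 0 → ¬ DefinedOver k a → DML f a) ∧
    (∀ (d : ℕ) (f : Fin 3 → MvPolynomial (Fin 3) ℂ), Endomorphism d f →
      ∃ Z : Set (Fin 3 → ℂ), Z.Countable ∧
        ∀ a : Fin 3 → ℂ, a ≠ 0 → (∀ z ∈ Z, ∀ c : ℂ, a ≠ c • z) → DML f a) := by
  refine ⟨fun k d f hk hf hc a ha0 ha => dml_outside k d f hf hc a ha0 ha, fun d f hf => ?_⟩
  obtain ⟨k, hk, hkc, hcoef⟩ := exists_countable_field f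
  refine ⟨{z | ∀ i, z i ∈ k}, ?_, fun a ha0 ha => ?_⟩
  · have h1 : {z : Fin 3 → ℂ | ∀ i, z i ∈ k} = Set.univ.pi fun _ => (k : Set ℂ) := by
      ext z
      simp
    rw [h1]
    exact Set.countable_univ_pi fun _ => hkc
  · apply dml_outside k d f hf hcoef a ha0
    rintro ⟨c, hc, h⟩
    refine ha (c • a) (fun i => h i) c⁻¹ ?_
    rw [smul_smul, inv_mul_cancel₀ hc, one_smul]

end Pool.Agent.Results.MP_b15c9e_ag.TranscendentalPoints
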